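import Pool.Agent.W705.JR.Tup

/-!
# Random braid words are separated by Vassiliev invariants of linear order

Diagrams (starting library `Pool.Agent.H891R2.Jones.Diagram`): `Diagram P` (oriented link diagrams with
marked points `P`, planar or not), `Outer m` (the part of an oriented diagram outside a box through which
`m` strands run, with arbitrary directions), `Outer.push` (draws one crossing in the box) and `Outer.close`
(fills the rest of the box with vertical strands).

`Pool.Agent.W639.RB.Defs`: `Letter m = Bool × Fin (m - 1)` (the letters `σ_i^{±1}` of the braid group on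
`m` strands), `diagram O w` (the diagram obtained by drawing the word `w : Fin n → Letter m` in the box of
`O`), `perm w` (the permutation of `w`); `Pool.Agent.W639.RB.Knots`: `IsKnot w` (the permutation of `w`
has a single cycle, i.e. the closure of the braid word `w` is a knot).  `Pool.Agent.W705.JR.Vas`: `dia O w`
is the diagram `diagram O w` as an element of `Dia`.

Vassiliev invariants (starting library `Pool.Agent.H832R3.VJ.Defs`): `Dia` (an oriented diagram with
the finite set of its marked points), `Separated d X Y` (some integer valued Vassiliev invariant of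
oriented links of order at most `d` has different values on `X` and `Y`).

Proof: the normalised bracket of the diagram with a random word has every given value with exponentially
small probability (`Pool.Agent.W705.JR.Main`), and diagrams with different normalised brackets are
separated by a derivative at `A = 1` whose order is at most the number of the monomials.
-/

set_option autoImplicit false

namespace Pool.Agent.Results.MP_31fd3b_gt.RandomBraidTuples

open Finset LaurentPolynomial Pool.Agent.H891R2.Jones Pool.Agent.W639.RB Pool.Agent.W705.JR
  Pool.Agent.H832R3.VJ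

theorem nsep {m n : ℕ} (O : Outer m) (Y : Dia) (w : Fin n → Letter m) (d : ℕ)
    (hd : 2 * (O.crossings.length + 2 * Nat.card O.P + (Y.D.crossings.length + 2 * Nat.card Y.P) + 
          (2 * m + 1) * n) < d) (h : ¬ Separated d (dia O w) Y) : (diagram O w).fPoly = Y.D.fPoly := by
  by_contra hne
  apply h
  refine sep_mono ?_ (sep_of_ne (dia O w) Y hne)
  rw [size_dia]
  unfold size
  omega

open Classical in
/-- Let `m ≥ 3`.  Words `w` of length `n` in the letters `σ_i^{±1}` of the braid group on `m` strands are
drawn in boxes of oriented link diagrams (with outsides `O`).  If all strands of the box have the same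
direction and the outside with `m` vertical strands is closed, then all these diagrams are closed.  There
are `C`, `r < 1` and `l0`, depending on `m` only, such that:

* for all outsides `O`, all diagrams `Y`, all `n` and all `d` greater than `2 (c + 2 p + (2m+1) n)`, where
  `c` is the number of crossings and `p` the number of marked points of `O` and `Y`, at most
  `C r^n (2m-2)^n` of the `(2m-2)^n` words of length `n` give a diagram which is not separated from `Y` by
  Vassiliev invariants of order at most `d`; for `n ≥ l0`, `n ≡ m - 1` modulo 2, also among the words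
  whose closure is a knot their proportion is at most `C r^n`;
* for all `M` and all outsides `O_1, …, O_M` with `c + 2 p ≤ N`, if `M` words of length `n` are chosen
  independently, then the diagrams are pairwise separated by Vassiliev invariants of order at most
  `(8m+4) n + 4 N + 1` with probability at least `1 - M² C r^n`; the same holds for words whose closures
  are knots (`n ≥ l0`, `n ≡ m - 1` modulo 2). -/
theorem result (m : ℕ) (hm : 3 ≤ m) :
    (∀ (O : Outer m), (∀ j, O.up j = true) → O.close.IsClosed → 
      ∀ (n : ℕ) (w : Fin n → Letter m), (diagram O w).IsClosed) ∧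
    ∃ (C r : ℝ) (l0 : ℕ), 0 < r ∧ r < 1 ∧ 
      (∀ (O : Outer m) (Y : Dia) (n d : ℕ), 
        2 * (O.crossings.length + 2 * Nat.card O.P + (Y.D.crossings.length + 2 * Nat.card Y.P) + 
          (2 * m + 1) * n) < d → 
        ((univ.filter (fun w : Fin n → Letter m => ¬ Separated d (dia O w) Y)).card : ℝ) ≤ 
          C * r ^ n * ((2 * (m - 1) : ℕ) : ℝ) ^ n ∧ 
        (l0 ≤ n → n % 2 = (m - 1) % 2 → 
          ((univ.filter (fun w : Fin n → Letter m => IsKnot w ∧ ¬ Separated d (dia O w) Y)).card : ℝ) ≤ 
            C * r ^ n * (univ.filter (fun w : Fin n → Letter m => IsKnot w)).card)) ∧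
      (∀ (M n N : ℕ) (O : Fin M → Outer m), 
        (∀ i, (O i).crossings.length + 2 * Nat.card (O i).P ≤ N) → 
        ((univ.filter (fun W : Fin M → Fin n → Letter m => ∃ i j, i ≠ j ∧ 
          ¬ Separated ((8 * m + 4) * n + 4 * N + 1) (dia (O i) (W i)) (dia (O j) (W j)))).card : ℝ) ≤ 
            (M:ℝ) ^ 2 * (C * r ^ n) * (((2 * (m - 1) : ℕ) : ℝ) ^ n) ^ M ∧ 
        (l0 ≤ n → n % 2 = (m - 1) % 2 → 
          ((univ.filter (fun W : Fin M → {w : Fin n → Letter m // IsKnot w} => ∃ i j, i ≠ j ∧ 
            ¬ Separated ((8 * m + 4) * n + 4 * N + 1) (dia (O i) (W i).1) (dia (O j) (W j).1))).card : ℝ) ≤ 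
              (M:ℝ) ^ 2 * (C * r ^ n) * (Fintype.card {w : Fin n → Letter m // IsKnot w} : ℝ) ^ M)) := by
  refine ⟨fun O hO hc _ w => draw_closed (toL w) O (toL_mem w) hO hc, ?_⟩
  obtain ⟨C, r, hC, h0, h1, h⟩ := count hm
  obtain ⟨C', l0, h'⟩ := knots' hm (by linarith) h0 h
  have key : ∀ (O : Outer m) (Y : Dia) (n d : ℕ), 
        2 * (O.crossings.length + 2 * Nat.card O.P + (Y.D.crossings.length + 2 * Nat.card Y.P) + 
          (2 * m + 1) * n) < d → 
        ((univ.filter (fun w : Fin n → Letter m => ¬ Separated d (dia O w) Y)).card : ℝ) ≤ 
          max C C' * r ^ n * ((2 * (m - 1) : ℕ) : ℝ) ^ n := by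
    intro O Y n d hd
    refine le_trans ?_ ((h O Y.D.fPoly n).trans ?_)
    · norm_cast
      refine Finset.card_le_card fun w hw => ?_
      rw [Finset.mem_filter] at hw ⊢
      exact ⟨hw.1, nsep O Y w d hd hw.2⟩
    · gcongr
      exact le_max_left _ _
  have key' : ∀ (O : Outer m) (Y : Dia) (n d : ℕ), 
        2 * (O.crossings.length + 2 * Nat.card O.P + (Y.D.crossings.length + 2 * Nat.card Y.P) + 
          (2 * m + 1) * n) < d → l0 ≤ n → n % 2 = (m - 1) % 2 → 
          ((univ.filter (fun w : Fin n → Letter m => IsKnot w ∧ ¬ Separated d (dia O w) Y)).card : ℝ) ≤ 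
            max C C' * r ^ n * (univ.filter (fun w : Fin n → Letter m => IsKnot w)).card := by
    intro O Y n d hd hn hpar
    refine le_trans ?_ ((h' O Y.D.fPoly n hn hpar).trans ?_)
    · norm_cast
      refine Finset.card_le_card fun w hw => ?_
      rw [Finset.mem_filter] at hw ⊢
      exact ⟨hw.1, hw.2.1, nsep O Y w d hd hw.2.2⟩
    · gcongr
      exact le_max_right _ _
  have hmax : 0 ≤ max C C' := le_trans (by linarith) (le_max_left C C')
  have hsz : ∀ {n : ℕ} (O : Outer m) (w : Fin n → Letter m), 
      (dia O w).D.crossings.length + 2 * Nat.card (dia O w).P = 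
        O.crossings.length + 2 * Nat.card O.P + (2 * m + 1) * n := fun O w => size_dia O w
  refine ⟨max C C', r, l0, h0, h1, fun O Y n d hd => ⟨key O Y n d hd, key' O Y n d hd⟩, 
    fun M n N O hN => ⟨?_, fun hn hpar => ?_⟩⟩
  · have h2 := tuples (α := Fin n → Letter m) M 
      (fun i j w w' => ¬ Separated ((8 * m + 4) * n + 4 * N + 1) (dia (O i) w) (dia (O j) w'))
      (max C C' * r ^ n) (by positivity) (by
        intro i j _ y
        have h3 := key (O i) (dia (O j) y) n ((8 * m + 4) * n + 4 * N + 1) (by
          rw [hsz]
          have := hN i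
          have := hN j
          nlinarith)
        have h4 : (Fintype.card (Fin n → Letter m) : ℝ) = ((2 * (m - 1) : ℕ) : ℝ) ^ n := by
          rw [Fintype.card_fun, Fintype.card_fin, card_letter]
          push_cast
          rfl
        rw [h4]
        exact le_trans (cardle _ _ _ _ id Function.injective_id fun w hw => hw) h3)
    have h4 : (Fintype.card (Fin n → Letter m) : ℝ) = ((2 * (m - 1) : ℕ) : ℝ) ^ n := by
      rw [Fintype.card_fun, Fintype.card_fin, card_letter]
      push_cast
      rfl
    rw [h4] at h2
    exact le_trans (cardle _ _ _ _ id Function.injective_id fun w hw => hw) h2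
  · have h2 := tuples (α := {w : Fin n → Letter m // IsKnot w}) M 
      (fun i j w w' => ¬ Separated ((8 * m + 4) * n + 4 * N + 1) (dia (O i) w.1) (dia (O j) w'.1))
      (max C C' * r ^ n) (by positivity) (by
        intro i j _ y
        have h3 := key' (O i) (dia (O j) y.1) n ((8 * m + 4) * n + 4 * N + 1) (by
          rw [hsz]
          have := hN i
          have := hN j
          nlinarith) hn hpar
        have h4 : Fintype.card {w : Fin n → Letter m // IsKnot w} = 
            (univ.filter (fun w : Fin n → Letter m => IsKnot w)).card := Fintype.card_subtype _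
        rw [h4]
        exact le_trans (cardle _ _ _ _ Subtype.val Subtype.val_injective fun w hw => ⟨w.2, hw⟩) h3)
    exact le_trans (cardle _ _ _ _ id Function.injective_id fun w hw => hw) h2

end Pool.Agent.Results.MP_31fd3b_gt.RandomBraidTuples
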