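import Pool.Agent.W642.RV.Vas
import Pool.Agent.W320.RV.Closed
import Pool.Agent.W337.RV.FPoly
import Pool.Agent.W902.RS.Exist

/-!
# Independent random knots are pairwise separated by Vassiliev invariants of order two

Definitions of the starting library: `GaussWord N` (the order in which the crossings of a knot diagram
with `N` crossings are passed), `Crosses G i j` (the chords of the crossings `i` and `j` cross),
`IsMatching` (`Pool.Agent.H832R2.JR.Defs`); `Dia` (an oriented link diagram with the finite set of its
marked points), `Dia.IsLink`, `Separated d X Y` (some integer valued Vassiliev invariant of order at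
most `d` has different values on `X` and `Y`; `Pool.Agent.H832R3.VJ.Defs`).

`Pool.Agent.W642.RS.Defs`: `Stack N n` (the Gauss word of a closed curve which is divided into `n`
consecutive arcs without self-crossings, any two of which cross at most once), `EdgesCross r i j`,
`IsPolygon r D` (the stack `D` describes the closed polygon with the vertices `r 0, …, r (n - 1)`,
numbers of points on a circle).  `Pool.Agent.W642.RV.Defs`: `dia G e w` (the knot diagram with Gauss
word `G`, local pictures `e` of the crossings and signs `w` of the crossings), `stackDia D h` (the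
diagram of the stack `D` with the arc `i` at height `h i`).
-/

set_option autoImplicit false

namespace Pool.Agent.Results.MP_31fd3b_gt.RandomStackings

open Finset Pool.Agent.H832R2.JR Pool.Agent.H832R3.VJ Pool.Agent.W642.RS Pool.Agent.W642.RV

open Classical in
/-- For `N > 0` all diagrams `dia G e w` are diagrams of links.

* (random crossings) Let `G_1, …, G_M` be shadows of knot diagrams with `N` crossings, each of which
  has `m` pairwise disjoint pairs of crossing chords, and choose the crossings of all of them
  independently at random.  With probability at least `1 - 32^(1/4) M² m^(-1/4)` the `M` knots are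
  pairwise separated by Vassiliev invariants of order at most `2`.
* (random stacking) There is an absolute constant `C` such that: let `M` closed curves with at least
  `L` crossings be given, each of which consists of `n` arcs, any two of which cross at most once,
  and put the arcs of each curve at the heights `1, …, n` in a random order.  With probability at
  least `1 - C M² n^(5/4) L^(-3/4)` the `M` knots are pairwise separated by Vassiliev invariants of
  order at most `2`.
* (random arc presentations, that is, grid diagrams) Every closed polygon with vertices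
  `r 0, …, r (n - 1)` on a circle is described by stacks.  Choose `M` permutations `r` and `M` orders
  of the heights of the `n` edges independently at random.  With probability at least
  `1 - C M² n^(-1/4)` the `M` knots are pairwise separated by Vassiliev invariants of order at
  most `2`. -/
theorem result :
    (∀ (N : ℕ) (G : GaussWord N) (e w : Fin N → Bool), 0 < N → (dia G e w).IsLink) ∧
    (∀ (M m N : ℕ) (G : Fin M → GaussWord N) (e : Fin M → Fin N → Bool),
      (∀ i, ∃ u v : Fin m → Fin N, IsMatching (G i) u v) →
      (m : ℝ) ^ (1 / 4 : ℝ) * ((univ.filter fun W : Fin M → Fin N → Bool =>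
        ∃ i j, i ≠ j ∧ ¬ Separated 2 (dia (G i) (e i) (W i)) (dia (G j) (e j) (W j))).card : ℝ) ≤
          (32 : ℝ) ^ (1 / 4 : ℝ) * (M : ℝ) ^ 2 * (2 : ℝ) ^ (N * M)) ∧
    (∃ C : ℝ, 0 < C ∧ ∀ (M n L : ℕ) (N : Fin M → ℕ) (D : ∀ i, Stack (N i) n), (∀ i, L ≤ N i) →
      (L : ℝ) ^ (3 / 4 : ℝ) * ((univ.filter fun W : Fin M → Equiv.Perm (Fin n) =>
        ∃ i j, i ≠ j ∧ ¬ Separated 2 (stackDia (D i) (W i)) (stackDia (D j) (W j))).card : ℝ) ≤
          C * (M : ℝ) ^ 2 * (n : ℝ) ^ (5 / 4 : ℝ) * (n.factorial : ℝ) ^ M) ∧
    (∀ (n : ℕ) (r : Equiv.Perm (Fin n)), ∃ (N : ℕ) (D : Stack N n), IsPolygon r D) ∧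
    (∃ C : ℝ, 0 < C ∧ ∀ (M n : ℕ) (N : Equiv.Perm (Fin n) → ℕ)
      (D : ∀ r : Equiv.Perm (Fin n), Stack (N r) n), (∀ r, IsPolygon r (D r)) →
      (n : ℝ) ^ (1 / 4 : ℝ) *
        ((univ.filter fun W : Fin M → Equiv.Perm (Fin n) × Equiv.Perm (Fin n) =>
        ∃ i j, i ≠ j ∧ ¬ Separated 2 (stackDia (D (W i).1) (W i).2)
          (stackDia (D (W j).1) (W j).2)).card : ℝ) ≤
            C * (M : ℝ) ^ 2 * (n.factorial : ℝ) ^ (2 * M)) :=
  ⟨fun _ G e w hN => isLink Pool.Agent.W320.RV.closed hN G e w,
    fixed_tuples Pool.Agent.W337.RV.fpoly, stack_tuples Pool.Agent.W337.RV.fpoly,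
    Pool.Agent.W902.RS.exist, arc_tuples Pool.Agent.W337.RV.fpoly⟩

end Pool.Agent.Results.MP_31fd3b_gt.RandomStackings
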